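import Pool.Agent.Helper6.NX.GoalsD

set_option autoImplicit false

/-! Project NX, packet IS2. -/

namespace Pool.Agent.Helper30.NX

open Equiv Pool.Agent.Helper6.NX

variable {n : ℕ}

lemma inv_pred (V : Perm (Fin n)) (Q : Fin n → Prop) (hQ : ∀ u, Q (V u) ↔ Q u) {p q : Fin n}
    (h : V.SameCycle p q) : Q p ↔ Q q := by
  obtain ⟨i, rfl⟩ := h
  induction i using Int.induction_on with
  | zero => simp
  | succ i ih =>
    rw [ih, ← hQ ((V ^ (i : ℤ)) p), ← Perm.mul_apply, ← zpow_one_add, add_comm]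
  | pred i ih =>
    rw [ih, ← hQ ((V ^ (-(i : ℤ) - 1)) p), ← Perm.mul_apply, ← zpow_one_add]
    rw [show 1 + (-(i : ℤ) - 1) = -(i : ℤ) by ring]

lemma app_inv (V : Perm (Fin n)) (p : Fin n) : V (V⁻¹ p) = p := V.apply_symm_apply p

/-- a representative of the cycle -/
noncomputable def rep (V : Perm (Fin n)) (p : Fin n) : Fin n :=
  (Quotient.mk (Equiv.Perm.SameCycle.setoid V) p).out

lemma rep_same (V : Perm (Fin n)) (p : Fin n) : V.SameCycle (rep V p) p :=
  Quotient.exact (Quotient.out_eq (Quotient.mk (Equiv.Perm.SameCycle.setoid V) p))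

lemma rep_eq (V : Perm (Fin n)) {p q : Fin n} (h : V.SameCycle p q) : rep V p = rep V q :=
  congrArg Quotient.out (Quotient.sound (s := Equiv.Perm.SameCycle.setoid V) h)

lemma rep_apply (V : Perm (Fin n)) (p : Fin n) : rep V (V p) = rep V p :=
  rep_eq V (Equiv.Perm.sameCycle_apply_left.2 (Equiv.Perm.SameCycle.refl V p))

/-- rank of `p` in `S` -/
def rk (S : Finset (Fin n)) (p : Fin n) : ℕ := (S.filter (· < p)).card

lemma rk_lt {S : Finset (Fin n)} {p : Fin n} (hp : p ∈ S) : rk S p < S.card := by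
  apply Finset.card_lt_card
  refine Finset.ssubset_iff_of_subset (Finset.filter_subset _ _) |>.2 ⟨p, hp, ?_⟩
  simp

lemma rk_inj {S : Finset (Fin n)} {p q : Fin n} (hp : p ∈ S) (hq : q ∈ S) (h : rk S p = rk S q) :
    p = q := by
  rcases lt_trichotomy p q with h1 | h1 | h1
  · exfalso
    have : rk S p < rk S q := by
      apply Finset.card_lt_card
      refine Finset.ssubset_iff_of_subset (fun a ha => ?_) |>.2 ⟨p, ?_, ?_⟩
      · rw [Finset.mem_filter] at ha ⊢
        exact ⟨ha.1, ha.2.trans h1⟩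
      · rw [Finset.mem_filter]
        exact ⟨hp, h1⟩
      · simp
    omega
  · exact h1
  · exfalso
    have : rk S q < rk S p := by
      apply Finset.card_lt_card
      refine Finset.ssubset_iff_of_subset (fun a ha => ?_) |>.2 ⟨q, ?_, ?_⟩
      · rw [Finset.mem_filter] at ha ⊢
        exact ⟨ha.1, ha.2.trans h1⟩
      · rw [Finset.mem_filter]
        exact ⟨hq, h1⟩
      · simp
    omega

/-- `S` is invariant under `V` and `E` embeds `S`, intertwining `V⁻¹` and `V'`. -/
structure PP (V V' : Perm (Fin n)) (S : Finset (Fin n)) (E : Fin n → Fin n) : Prop where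
  inv : ∀ u, V u ∈ S ↔ u ∈ S
  inj : Set.InjOn E S
  tw : ∀ u ∈ S, E u = V' (E (V u))

open Classical in
/-- a chosen embedding for given `S` and image -/
noncomputable def e0 (V V' : Perm (Fin n)) (S S' : Finset (Fin n)) : Fin n → Fin n :=
  if h : ∃ E, PP V V' S E ∧ S.image E = S' then h.choose else id

lemma e0_spec {V V' : Perm (Fin n)} {S : Finset (Fin n)} {E : Fin n → Fin n} (h : PP V V' S E) :
    PP V V' S (e0 V V' S (S.image E)) ∧ S.image (e0 V V' S (S.image E)) = S.image E := by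
  classical
  have h' : ∃ E', PP V V' S E' ∧ S.image E' = S.image E := ⟨E, h, rfl⟩
  unfold e0
  rw [dif_pos h']
  exact h'.choose_spec

open Classical in
noncomputable def col (x : ℕ) (V : Perm (Fin n)) (S : Finset (Fin n)) (E : Fin n → Fin n)
    (p : Fin n) : Fin (x + 1) :=
  if p ∈ S then Fin.ofNat (x + 1) (1 + rk (S.image E) (E (rep V p)) / x) else 0

open Classical in
noncomputable def col' (x : ℕ) (V V' : Perm (Fin n)) (S : Finset (Fin n)) (E : Fin n → Fin n)
    (q : Fin n) : Fin (x + 1) :=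
  if h : ∃ p ∈ S, e0 V V' S (S.image E) p = q then
    Fin.ofNat (x + 1) (1 + rk (S.image E) (E (rep V h.choose)) % x) else 0

lemma ofNat_val {x k : ℕ} (hk : k < x) : (Fin.ofNat (x + 1) (1 + k)).val = 1 + k := by
  rw [Fin.val_ofNat]
  exact Nat.mod_eq_of_lt (by omega)

lemma ofNat_ne {x k : ℕ} (hk : k < x) : Fin.ofNat (x + 1) (1 + k) ≠ 0 := by
  intro h
  have := congrArg Fin.val h
  rw [ofNat_val hk] at this
  simp at this

section
variable {V V' : Perm (Fin n)} {S : Finset (Fin n)} {E : Fin n → Fin n} {x : ℕ}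

lemma rep_mem (h : PP V V' S E) {p : Fin n} (hp : p ∈ S) : rep V p ∈ S :=
  (inv_pred V (· ∈ S) h.inv (rep_same V p)).2 hp

lemma lt_sq (h : PP V V' S E) (hs : S.card ≤ x ^ 2) {p : Fin n} (hp : p ∈ S) :
    rk (S.image E) (E (rep V p)) < x * x := by
  have h1 : E (rep V p) ∈ S.image E := Finset.mem_image_of_mem E (rep_mem h hp)
  have h2 := rk_lt h1
  have h3 := Finset.card_image_le (s := S) (f := E)
  nlinarith

lemma x_pos (h : PP V V' S E) (hs : S.card ≤ x ^ 2) {p : Fin n} (hp : p ∈ S) : 0 < x := by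
  have := lt_sq h hs hp
  rcases Nat.eq_zero_or_pos x with rfl | h
  · simp at this
  · exact h

lemma col_of_mem {p : Fin n} (hp : p ∈ S) :
    col x V S E p = Fin.ofNat (x + 1) (1 + rk (S.image E) (E (rep V p)) / x) := if_pos hp

lemma col_of_not_mem {p : Fin n} (hp : p ∉ S) : col x V S E p = 0 := if_neg hp

lemma col_ne (h : PP V V' S E) (hs : S.card ≤ x ^ 2) (p : Fin n) : col x V S E p ≠ 0 ↔ p ∈ S := by
  by_cases hp : p ∈ S
  · rw [col_of_mem hp]
    exact ⟨fun _ => hp, fun _ => ofNat_ne ((Nat.div_lt_iff_lt_mul (x_pos h hs hp)).2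
      (lt_sq h hs hp))⟩
  · rw [col_of_not_mem hp]
    simp [hp]

lemma col_inv (h : PP V V' S E) (p : Fin n) : col x V S E (V p) = col x V S E p := by
  by_cases hp : p ∈ S
  · rw [col_of_mem hp, col_of_mem ((h.inv p).2 hp), rep_apply]
  · rw [col_of_not_mem hp, col_of_not_mem (fun h' => hp ((h.inv p).1 h'))]

lemma col'_of_mem (h : PP V V' S E) {p : Fin n} (hp : p ∈ S) :
    col' x V V' S E (e0 V V' S (S.image E) p) =
      Fin.ofNat (x + 1) (1 + rk (S.image E) (E (rep V p)) % x) := by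
  have h' : ∃ p' ∈ S, e0 V V' S (S.image E) p' = e0 V V' S (S.image E) p := ⟨p, hp, rfl⟩
  unfold col'
  rw [dif_pos h']
  have h1 := h'.choose_spec
  have h2 : h'.choose = p := (e0_spec h).1.inj h1.1 hp h1.2
  rw [h2]

lemma col'_of_not_mem (h : PP V V' S E) {q : Fin n} (hq : q ∉ S.image E) :
    col' x V V' S E q = 0 := by
  unfold col'
  rw [dif_neg]
  rintro ⟨p, hp, hpq⟩
  apply hq
  have h1 := (e0_spec h).2
  rw [← h1, ← hpq]
  exact Finset.mem_image_of_mem _ hp

lemma exists_pre (h : PP V V' S E) {q : Fin n} (hq : q ∈ S.image E) :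
    ∃ p ∈ S, e0 V V' S (S.image E) p = q := by
  rw [← (e0_spec h).2] at hq
  exact Finset.mem_image.1 hq

lemma col'_ne (h : PP V V' S E) (hs : S.card ≤ x ^ 2) (q : Fin n) :
    col' x V V' S E q ≠ 0 ↔ q ∈ S.image E := by
  by_cases hq : q ∈ S.image E
  · refine ⟨fun _ => hq, fun _ => ?_⟩
    obtain ⟨p, hp, rfl⟩ := exists_pre h hq
    rw [col'_of_mem h hp]
    exact ofNat_ne (Nat.mod_lt _ (x_pos h hs hp))
  · rw [col'_of_not_mem h hq]
    simp [hq]

lemma image_inv (h : PP V V' S E) (q : Fin n) : V' q ∈ S.image E ↔ q ∈ S.image E := by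
  constructor
  · intro hq
    obtain ⟨p, hp, e⟩ := Finset.mem_image.1 hq
    rw [h.tw p hp] at e
    have := V'.injective e
    rw [← this]
    exact Finset.mem_image_of_mem _ ((h.inv p).2 hp)
  · intro hq
    obtain ⟨p, hp, rfl⟩ := Finset.mem_image.1 hq
    have h1 : V⁻¹ p ∈ S := by
      rw [← h.inv]
      simpa using hp
    have h2 := h.tw _ h1
    rw [app_inv] at h2
    rw [← h2]
    exact Finset.mem_image_of_mem _ h1

lemma col'_inv (h : PP V V' S E) (q : Fin n) :
    col' x V V' S E (V' q) = col' x V V' S E q := by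
  by_cases hq : q ∈ S.image E
  · obtain ⟨p, hp, rfl⟩ := exists_pre h hq
    have h1 : V⁻¹ p ∈ S := by
      rw [← h.inv]
      simpa using hp
    have h2 := (e0_spec h).1.tw _ h1
    rw [app_inv] at h2
    rw [← h2, col'_of_mem h h1, col'_of_mem h hp]
    have h3 : rep V (V⁻¹ p) = rep V p := by
      rw [← rep_apply V (V⁻¹ p), app_inv]
    rw [h3]
  · rw [col'_of_not_mem h hq, col'_of_not_mem h (fun h' => hq ((image_inv h q).1 h'))]

lemma recover {S₂ : Finset (Fin n)} {E₂ : Fin n → Fin n} (h : PP V V' S E) (h₂ : PP V V' S₂ E₂)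
    (hs : S.card ≤ x ^ 2) (hs₂ : S₂.card ≤ x ^ 2) (hc : col x V S E = col x V S₂ E₂)
    (hc' : col' x V V' S E = col' x V V' S₂ E₂) : S = S₂ ∧ ∀ p ∈ S, E p = E₂ p := by
  have hS : S = S₂ := by
    ext p
    rw [← col_ne h hs, ← col_ne h₂ hs₂, hc]
  subst hS
  have hI : S.image E = S.image E₂ := by
    ext p
    rw [← col'_ne h hs, ← col'_ne h₂ hs₂, hc']
  refine ⟨rfl, fun p hp => ?_⟩
  have hx := x_pos h hs hp
  have h1 := congrFun hc p
  rw [col_of_mem hp, col_of_mem hp] at h1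
  have h1' := congrArg Fin.val h1
  rw [ofNat_val ((Nat.div_lt_iff_lt_mul hx).2 (lt_sq h hs hp)),
    ofNat_val ((Nat.div_lt_iff_lt_mul hx).2 (lt_sq h₂ hs₂ hp))] at h1'
  have h2 := congrFun hc' (e0 V V' S (S.image E) p)
  rw [col'_of_mem h hp] at h2
  have h3 : col' x V V' S E₂ (e0 V V' S (S.image E) p) =
      Fin.ofNat (x + 1) (1 + rk (S.image E₂) (E₂ (rep V p)) % x) := by
    rw [hI]
    exact col'_of_mem h₂ hp
  rw [h3] at h2
  have h2' := congrArg Fin.val h2
  rw [ofNat_val (Nat.mod_lt _ hx), ofNat_val (Nat.mod_lt _ hx)] at h2'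
  have h4 : rk (S.image E) (E (rep V p)) = rk (S.image E₂) (E₂ (rep V p)) := by
    rw [← Nat.div_add_mod (rk (S.image E) (E (rep V p))) x,
      ← Nat.div_add_mod (rk (S.image E₂) (E₂ (rep V p))) x]
    have a1 : rk (S.image E) (E (rep V p)) / x = rk (S.image E₂) (E₂ (rep V p)) / x := by omega
    have a2 : rk (S.image E) (E (rep V p)) % x = rk (S.image E₂) (E₂ (rep V p)) % x := by omega
    rw [a1, a2]
  have hr := rep_mem h hp
  have h5 : E (rep V p) = E₂ (rep V p) := by
    rw [hI] at h4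
    refine rk_inj ?_ (Finset.mem_image_of_mem _ hr) h4
    rw [← hI]
    exact Finset.mem_image_of_mem _ hr
  have key := inv_pred V (fun u => u ∈ S ∧ E u = E₂ u) (fun u => by
    constructor
    · rintro ⟨a, b⟩
      have hu := (h.inv u).1 a
      refine ⟨hu, ?_⟩
      rw [h.tw u hu, h₂.tw u hu, b]
    · rintro ⟨a, b⟩
      refine ⟨(h.inv u).2 a, ?_⟩
      rw [h.tw u a, h₂.tw u a] at b
      exact V'.injective b) (rep_same V p)
  exact (key.1 ⟨hr, h5⟩).2

end

open Classical in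
/-- total extension -/
noncomputable def ex {S : Finset (Fin n)} (e : S ↪ Fin n) (p : Fin n) : Fin n :=
  if h : p ∈ S then e ⟨p, h⟩ else p

lemma ex_of_mem {S : Finset (Fin n)} (e : S ↪ Fin n) {p : Fin n} (hp : p ∈ S) :
    ex e p = e ⟨p, hp⟩ := dif_pos hp

lemma pp_ex {V V' : Perm (Fin n)} {S : Finset (Fin n)} (hS : im V S = S) (e : S ↪ Fin n)
    (he : ∀ u v : S, V v = u → e v = V' (e u)) : PP V V' S (ex e) := by
  have hinv : ∀ u, V u ∈ S ↔ u ∈ S := by
    intro u
    constructor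
    · intro h
      rw [← hS] at h
      obtain ⟨w, hw, e⟩ := Finset.mem_image.1 h
      rw [← V.injective e]
      exact hw
    · intro h
      rw [← hS]
      exact Finset.mem_image_of_mem _ h
  refine ⟨hinv, ?_, ?_⟩
  · intro a ha b hb h
    rw [ex_of_mem e ha, ex_of_mem e hb] at h
    exact congrArg Subtype.val (e.injective h)
  · intro u hu
    rw [ex_of_mem e hu, ex_of_mem e ((hinv u).2 hu)]
    exact he ⟨V u, (hinv u).2 hu⟩ ⟨u, hu⟩ rfl

theorem thmIS2 : Pool.Agent.Helper6.NX.S_IS2 := by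
  classical
  intro n s x V V' hsx
  set 𝒮 := (Finset.powersetCard s (Finset.univ : Finset (Fin n))).filter (fun S => im V S = S)
    with h𝒮
  have hmem : ∀ S ∈ 𝒮, S.card = s ∧ im V S = S := by
    intro S hS
    rw [h𝒮, Finset.mem_filter, Finset.mem_powersetCard] at hS
    exact ⟨hS.1.2, hS.2⟩
  let X : Type := Σ S : 𝒮, {e : (S : Finset (Fin n)) ↪ Fin n //
    ∀ u v : (S : Finset (Fin n)), V v = u → e v = V' (e u)}
  let CC : Perm (Fin n) → Finset (Fin n → Fin (x + 1)) := fun V =>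
    Finset.univ.filter fun χ : Fin n → Fin (x + 1) =>
      (∀ p, χ (V p) = χ p) ∧ (Finset.univ.filter fun p => χ p ≠ 0).card = s
  have hpp : ∀ a : X, PP V V' a.1 (ex a.2.1) := fun a =>
    pp_ex (hmem a.1 a.1.2).2 a.2.1 a.2.2
  have hcard : ∀ a : X, (a.1 : Finset (Fin n)).card ≤ x ^ 2 := fun a => by
    rw [(hmem a.1 a.1.2).1]
    exact hsx
  let F : X → (CC V) × (CC V') := fun a =>
    (⟨col x V a.1 (ex a.2.1), by
      rw [Finset.mem_filter]
      refine ⟨Finset.mem_univ _, col_inv (hpp a), ?_⟩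
      rw [← (hmem a.1 a.1.2).1]
      congr 1
      ext p
      rw [Finset.mem_filter]
      simp only [Finset.mem_univ, true_and]
      exact col_ne (hpp a) (hcard a) p⟩,
    ⟨col' x V V' a.1 (ex a.2.1), by
      rw [Finset.mem_filter]
      refine ⟨Finset.mem_univ _, col'_inv (hpp a), ?_⟩
      rw [← (hmem a.1 a.1.2).1, ← Finset.card_image_of_injOn (hpp a).inj]
      congr 1
      ext p
      rw [Finset.mem_filter]
      simp only [Finset.mem_univ, true_and]
      exact col'_ne (hpp a) (hcard a) p⟩)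
  have hF : Function.Injective F := by
    rintro ⟨⟨S, hS⟩, e, he⟩ ⟨⟨S₂, hS₂⟩, e₂, he₂⟩ hab
    have h1 := congrArg (fun z => (z.1 : Fin n → Fin (x + 1))) hab
    have h2 := congrArg (fun z => (z.2 : Fin n → Fin (x + 1))) hab
    obtain ⟨k1, k2⟩ := recover (hpp ⟨⟨S, hS⟩, e, he⟩) (hpp ⟨⟨S₂, hS₂⟩, e₂, he₂⟩)
      (hcard ⟨⟨S, hS⟩, e, he⟩) (hcard ⟨⟨S₂, hS₂⟩, e₂, he₂⟩) h1 h2
    dsimp only at k1 k2
    subst k1
    have : e = e₂ := by
      ext1 u
      have := k2 u.1 u.2
      rw [ex_of_mem e u.2, ex_of_mem e₂ u.2] at this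
      exact this
    subst this
    rfl
  have h3 : Nat.card X ≤ Nat.card ((CC V) × (CC V')) := Nat.card_le_card_of_injective F hF
  have h4 : Nat.card X = ∑ S ∈ 𝒮, emb V V' S := by
    change Nat.card (Σ S : 𝒮, {e : (S : Finset (Fin n)) ↪ Fin n //
      ∀ u v : (S : Finset (Fin n)), V v = u → e v = V' (e u)}) = _
    rw [Nat.card_sigma]
    exact Finset.sum_coe_sort 𝒮 (fun S => emb V V' S)
  have h5 : Nat.card ((CC V) × (CC V')) = (CC V).card * (CC V').card := by
    rw [Nat.card_prod, Nat.card_eq_fintype_card, Nat.card_eq_fintype_card, Fintype.card_coe,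
      Fintype.card_coe]
  rw [h4, h5] at h3
  have h6 : II s V V' = ((∑ S ∈ 𝒮, emb V V' S : ℕ) : ℝ) := by
    unfold II
    push_cast
    rfl
  have h7 : ∀ V : Perm (Fin n), colc x s V = ((CC V).card : ℝ) := by
    intro V
    unfold colc
    rfl
  rw [h6, h7, h7]
  exact_mod_cast h3

end Pool.Agent.Helper30.NX
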